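import Pool.Agent.Helper84_HEC.ALL

/-!
# Equitable proper 3-labellings of graphs without small edge cuts

Every finite graph in which every nonempty edge cut has at least 20000 edges has an equitable
proper labelling with the labels 1, 2, 3.
-/

set_option autoImplicit false

open Pool.Agent.Helper51_Equitable

namespace Pool.Agent.Helper84_Moved.HighlyConnected

/-- The number of edges of `G` with one end in `S` and the other end outside `S`. -/
noncomputable def cutSize {V : Type} (G : SimpleGraph V) (S : Set V) : ℕ :=
  {e | e ∈ G.edgeSet ∧ ∃ u ∈ S, ∃ v ∉ S, e = s(u, v)}.ncard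

/-- **Main result.** If every edge cut of a finite graph `G` is empty or has at least 20000 edges,
then `G` has an equitable proper 3-labelling. -/
theorem result (V : Type) [Fintype V] (G : SimpleGraph V)
    (hG : ∀ S : Set V, cutSize G S = 0 ∨ 20000 ≤ cutSize G S) :
    ∃ ℓ : Sym2 V → ℕ, IsEquitableProper G 3 ℓ :=
  Pool.Agent.HEC.H84.main_of_fin Pool.Agent.HEC.H84.all_fin V G hG

end Pool.Agent.Helper84_Moved.HighlyConnected
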